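import Mathlib
import Pool.Agent.H6.KPalDefs
import Pool.Agent.H6.KPal

namespace Pool.Agent.Results.MP_ca9ca1_co.Rich

open Pool.Agent.H6.KPal in
/-- For every `k ≥ 1` there is an infinite `k`-abelian rich word. -/
theorem result : ∀ k : ℕ, 1 ≤ k → ∃ (r : ℕ) (w : ℕ → Fin r) (C : ℝ), 0 < C ∧
    ∀ i n : ℕ, 1 ≤ n → C * (n : ℝ) ^ 2 ≤ kpal k ((List.range' i n).map w) :=
  main

end Pool.Agent.Results.MP_ca9ca1_co.Rich
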